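import Pool.Agent.Y116.MT.Defs

/-!
# Motives over varying fields: definitions
-/

set_option autoImplicit false

open CategoryTheory Limits MonoidalCategory Pretriangulated Triangulated

namespace Pool.Agent.V11244.MTF

universe v u w s

open Pool.Agent.Y116.MT

/-- A category of motives: a rigid, idempotent complete tensor triangulated category in which the
unit has no nontrivial idempotent endomorphisms, with a family of realisations. -/
structure MotCat (Λ : Type*) (E : Λ → Type w) [∀ l, Field (E l)] where
  /-- the objects -/
  C : Type u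
  [cat : Category.{v} C]
  [preadditive : Preadditive C]
  [zero : HasZeroObject C]
  [shift : HasShift C ℤ]
  [shiftAdditive : ∀ n : ℤ, (shiftFunctor C n).Additive]
  [pretriangulated : Pretriangulated C]
  [triangulated : IsTriangulated C]
  [monoidal : MonoidalCategory C]
  [symmetric : SymmetricCategory C]
  [tensor : TensorTriangulated C]
  [monoidalPreadditive : MonoidalPreadditive C]
  [rigid : RightRigidCategory C]
  [idempotentComplete : IsIdempotentComplete C]
  unit : ∀ e : 𝟙_ C ⟶ 𝟙_ C, e ≫ e = e → e = 0 ∨ e = 𝟙 _
  /-- the realisations -/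
  R : ∀ l, Realisation C (E l)

attribute [instance] MotCat.cat MotCat.preadditive MotCat.zero MotCat.shift MotCat.shiftAdditive
  MotCat.pretriangulated MotCat.triangulated MotCat.monoidal MotCat.symmetric MotCat.tensor
  MotCat.monoidalPreadditive MotCat.rigid MotCat.idempotentComplete

section

variable {Λ : Type*} {E : Λ → Type w} [∀ l, Field (E l)]

/-- There is a motivic t-structure: non-degenerate, compatible with the tensor product, and such
that all realisations are t-exact. -/
def MotCat.HasMotivic (M : MotCat.{v, u, w} Λ E) : Prop := ∃ t : TStructure M.C, IsMotivic t M.R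

/-- The cohomology groups `H^i(X)` of the realisation `R l`. -/
abbrev MotCat.coh (M : MotCat.{v, u, w} Λ E) (l : Λ) (i : ℤ) (X : M.C) : ModuleCat (E l) :=
  (M.R l).H.obj (X⟦i⟧)

/-- Descent of triangles up to retracts: for a triangle `A ⟶ F X ⟶ B` there is a triangle
`A' ⟶ Z ⟶ B'`, `X` being a retract of `Z`, such that `H^i(A') = 0` if `H^i(A) = 0`, and
`H^i(B') = 0` if `H^i(B) = 0`. -/
def Descends {M N : MotCat.{v, u, w} Λ E} (l₀ : Λ) (F : M.C ⥤ N.C) : Prop :=
  ∀ (X : M.C) (A B : N.C) (f : A ⟶ F.obj X) (g : F.obj X ⟶ B) (h : B ⟶ A⟦(1 : ℤ)⟧),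
    Triangle.mk f g h ∈ distTriang N.C →
    ∃ (Z A' B' : M.C) (f' : A' ⟶ Z) (g' : Z ⟶ B') (h' : B' ⟶ A'⟦(1 : ℤ)⟧),
      Nonempty (Retract X Z) ∧ Triangle.mk f' g' h' ∈ distTriang M.C ∧
      (∀ i : ℤ, IsZero (N.coh l₀ i A) → IsZero (M.coh l₀ i A')) ∧
      (∀ i : ℤ, IsZero (N.coh l₀ i B) → IsZero (M.coh l₀ i B'))

/-- A base change functor `F`: triangulated, not changing the cohomology, faithful (for motives
with rational coefficients: spreading out, a closed point, and the norm), with descent of triangles
up to retracts (spreading out, a closed point, and the direct image). -/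
structure BaseChange (M N : MotCat.{v, u, w} Λ E) (l₀ : Λ) where
  /-- the functor -/
  F : M.C ⥤ N.C
  [commShift : F.CommShift ℤ]
  [triangulated : F.IsTriangulated]
  coh (l : Λ) (i : ℤ) (X : M.C) : IsZero (N.coh l i (F.obj X)) ↔ IsZero (M.coh l i X)
  faithful {X Y : M.C} (f : X ⟶ Y) : F.map f = 0 → f = 0
  descent : Descends l₀ F

attribute [instance] BaseChange.commShift BaseChange.triangulated

/-- The morphism `g` comes by base change from a morphism of `M`. -/
def BaseChange.Defined {M N : MotCat.{v, u, w} Λ E} {l₀ : Λ} (b : BaseChange M N l₀) {X Y : N.C}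
    (g : X ⟶ Y) : Prop :=
  ∃ (X' Y' : M.C) (g' : X' ⟶ Y') (a : b.F.obj X' ≅ X) (c : b.F.obj Y' ≅ Y),
    a.hom ≫ g = b.F.map g' ≫ c.hom

end

/-- A field is finitely generated (over its prime field). -/
def FG (k : Type s) [Field k] : Prop := ∃ S : Finset k, Subfield.closure (S : Set k) = ⊤

/-- The categories of motives over all fields of characteristic `p`, with base change: the formal
properties of `DM_c(k)` with rational coefficients which are used. -/
structure Motives (p : ℕ) (Λ : Type*) (E : Λ → Type w) [∀ l, Field (E l)] (l₀ : Λ) where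
  /-- the category of motives over `k` -/
  M : ∀ (k : Type s) [Field k] [CharP k p], MotCat.{v, u, w} Λ E
  /-- base change along an extension of fields -/
  F : ∀ {k K : Type s} [Field k] [CharP k p] [Field K] [CharP K p], (k →+* K) →
    BaseChange (M k) (M K) l₀
  /-- continuity: every morphism over `K` is defined over a finitely generated field -/
  continuity : ∀ {K : Type s} [Field K] [CharP K p] {X Y : (M K).C} (g : X ⟶ Y),
    ∃ (k : Type s) (_ : Field k) (_ : CharP k p) (φ : k →+* K), FG k ∧ (F φ).Defined g

end Pool.Agent.V11244.MTF
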