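import Pool.Agent.V11244.MTF.Defs

/-!
# Finitely generated fields embed into uncountable algebraically closed fields
-/

set_option autoImplicit false

open Cardinal

namespace Pool.Agent.V11244.MTF

universe s

lemma card_alg {P Q : Type s} [Field P] [Field Q] [Algebra P Q] [Algebra.IsAlgebraic P Q]
    {c : Cardinal.{s}} (hP : #P = c) (hc : ℵ₀ < c) : #Q = c := by
  apply le_antisymm
  · refine (Algebra.IsAlgebraic.cardinalMk_le_max P Q).trans ?_
    rw [hP, max_eq_left hc.le]
  · rw [← hP]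
    exact Cardinal.mk_le_of_injective (algebraMap P Q).injective

lemma emb_aux {p : ℕ} {Ω P Q : Type s} [Field Ω] [Field P] [Field Q] [Algebra P Q]
    [Algebra.IsAlgebraic P Q] [IsAlgClosed Q] [IsAlgClosed Ω] [CharP Ω p] [CharP Q p]
    (hΩ : ℵ₀ < #Ω) (hP : #P = #Ω) : Nonempty (P →+* Ω) := by
  have hQ : #Q = #Ω := card_alg hP hΩ
  obtain ⟨e⟩ := IsAlgClosed.ringEquiv_of_equiv_of_char_eq (K := Q) (L := Ω) p (by rw [hQ]; exact hΩ)
    (Cardinal.eq.1 hQ)
  exact ⟨e.toRingHom.comp (algebraMap P Q)⟩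

lemma emb_aux' {p : ℕ} {Ω P : Type s} [Field Ω] [Field P] [IsAlgClosed Ω] [CharP Ω p] [CharP P p]
    (hΩ : ℵ₀ < #Ω) (hP : #P = #Ω) : Nonempty (P →+* Ω) := by
  have hc : CharP (AlgebraicClosure P) p :=
    charP_of_injective_ringHom (algebraMap P (AlgebraicClosure P)).injective p
  exact emb_aux (p := p) (Q := AlgebraicClosure P) hΩ hP

lemma countable_of_fg {k : Type s} [Field k] (hk : FG k) : #k ≤ ℵ₀ := by
  obtain ⟨T, hT⟩ := hk
  have h1 := Subfield.cardinalMk_closure_le_max (T : Set k)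
  rw [hT] at h1
  have h2 : #(⊤ : Subfield k) = #k := Cardinal.mk_congr Subfield.topEquiv.toEquiv
  rw [h2] at h1
  refine h1.trans (max_le ?_ le_rfl)
  exact (Cardinal.mk_le_aleph0_iff).2 (T : Set k).to_countable

lemma emb_aux'' {p : ℕ} {Ω k R P : Type s} [Field Ω] [Field k] [CommRing R] [IsDomain R] [Field P]
    [Algebra R P] [IsFractionRing R P] [IsAlgClosed Ω] [CharP Ω p] [CharP k p] (ψ : k →+* R)
    (hΩ : ℵ₀ < #Ω) (hP : #P = #Ω) : Nonempty (k →+* Ω) := by
  let φ : k →+* P := (algebraMap R P).comp ψ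
  have hc : CharP P p := charP_of_injective_ringHom φ.injective p
  obtain ⟨e⟩ := emb_aux' (p := p) hΩ hP
  exact ⟨e.comp φ⟩

/-- A finitely generated field embeds into an uncountable algebraically closed field of the same
characteristic. -/
theorem embeds {p : ℕ} {Ω : Type s} [Field Ω] [CharP Ω p] [IsAlgClosed Ω] (hΩ : ℵ₀ < #Ω)
    (k : Type s) [Field k] [CharP k p] (hk : FG k) : Nonempty (k →+* Ω) := by
  have hkc := countable_of_fg hk
  have : Nonempty Ω := ⟨0⟩
  have hP : #(FractionRing (MvPolynomial Ω k)) = #Ω := by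
    rw [Cardinal.mk_fractionRing, MvPolynomial.cardinalMk_eq_max, max_eq_right (hkc.trans hΩ.le),
      max_eq_left hΩ.le]
  exact emb_aux'' (p := p) (MvPolynomial.C : k →+* MvPolynomial Ω k) hΩ hP

end Pool.Agent.V11244.MTF
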