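import Pool.Agent.V11244.MTF.Retr

/-!
# Motivic t-structures over varying fields
-/

set_option autoImplicit false
set_option linter.unusedSectionVars false
set_option backward.isDefEq.respectTransparency false
set_option backward.defeqAttrib.useBackward true

open CategoryTheory Limits MonoidalCategory Pretriangulated Triangulated Cardinal

namespace Pool.Agent.V11244.MTF

universe v u w s

open Pool.Agent.Y116.MT Pool.Agent.V1151.MTC

variable {Λ : Type*} {E : Λ → Type w} [∀ l, Field (E l)]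

lemma hasMotivic_iff (M : MotCat.{v, u, w} Λ E) (l₀ : Λ) : M.HasMotivic ↔ Intrinsic M.R l₀ :=
  (Pool.Agent.V1151.MTC.main M.R l₀ M.unit).out 0 3

variable {p : ℕ} {l₀ : Λ} (S : Motives.{v, u, w, s} p Λ E l₀)

/-- **Descent.** A motivic t-structure over `K` gives one over every subfield. -/
theorem down {k K : Type s} [Field k] [CharP k p] [Field K] [CharP K p] (φ : k →+* K)
    (h : (S.M K).HasMotivic) : (S.M k).HasMotivic := by
  rw [hasMotivic_iff _ l₀] at h ⊢
  have ho : ∀ {X Y : (S.M k).C} (f : X ⟶ Y), CohLE ((S.M k).R l₀) 0 X →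
      CohGE ((S.M k).R l₀) 1 Y → f = 0 := by
    intro X Y f hX hY
    apply (S.F φ).faithful f
    apply h.orthogonal
    · exact fun i hi => ((S.F φ).coh l₀ i X).2 (hX i hi)
    · exact fun i hi => ((S.F φ).coh l₀ i Y).2 (hY i hi)
  refine ⟨?_, ho, ?_, ?_⟩
  · intro X hX
    have h1 : IsZero ((S.F φ).F.obj X) := h.conservative _ fun i => ((S.F φ).coh l₀ i X).2 (hX i)
    rw [IsZero.iff_id_eq_zero]
    apply (S.F φ).faithful
    exact h1.eq_of_src _ _
  · intro X
    obtain ⟨A, B, f, g, k', hT, hA, hB⟩ := h.truncation ((S.F φ).F.obj X)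
    obtain ⟨Z, A', B', f', g', h', ⟨r⟩, hT', hA', hB'⟩ := (S.F φ).descent X A B f g k' hT
    exact retract_truncation ho r hT' (fun i hi => hA' i (hA i hi)) (fun i hi => hB' i (hB i hi))
  · intro l X
    refine ⟨fun hX i hi => ?_, fun hX i hi => ?_⟩
    · exact ((S.F φ).coh l i X).1
        ((h.amplitude l _).1 (fun j hj => ((S.F φ).coh l₀ j X).2 (hX j hj)) i hi)
    · exact ((S.F φ).coh l i X).1
        ((h.amplitude l _).2 (fun j hj => ((S.F φ).coh l₀ j X).2 (hX j hj)) i hi)

/-- **Continuity.** Motivic t-structures over all finitely generated subfields give one. -/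
theorem up {K : Type s} [Field K] [CharP K p]
    (h : ∀ (k : Type s) [Field k] [CharP k p], FG k → (k →+* K) → (S.M k).HasMotivic) :
    (S.M K).HasMotivic := by
  rw [hasMotivic_iff _ l₀]
  have ho : ∀ {X Y : (S.M K).C} (g : X ⟶ Y), CohLE ((S.M K).R l₀) 0 X →
      CohGE ((S.M K).R l₀) 1 Y → g = 0 := by
    intro X Y g hX hY
    obtain ⟨k, _, _, φ, hk, X', Y', g', a, b, hg⟩ := S.continuity g
    have hI := (hasMotivic_iff _ l₀).1 (h k hk φ)
    have h1 : g' = 0 := hI.orthogonal g'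
      (fun i hi => ((S.F φ).coh l₀ i X').1 ((hX.iso a.symm) i hi))
      (fun i hi => ((S.F φ).coh l₀ i Y').1 ((hY.iso b.symm) i hi))
    rw [← cancel_epi a.hom, hg, h1, comp_zero, Functor.map_zero, zero_comp]
  refine ⟨?_, ho, ?_, ?_⟩
  · intro X hX
    obtain ⟨k, _, _, φ, hk, X', Y', g', a, b, hg⟩ := S.continuity (𝟙 X)
    have hI := (hasMotivic_iff _ l₀).1 (h k hk φ)
    have h1 : IsZero X' := hI.conservative X' fun i => ((S.F φ).coh l₀ i X').1
      ((hX i).of_iso (((S.M K).R l₀).H.mapIso ((shiftFunctor _ i).mapIso a)))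
    exact (Functor.map_isZero (S.F φ).F h1).of_iso a.symm
  · intro X
    obtain ⟨k, _, _, φ, hk, X', Y', g', a, b, hg⟩ := S.continuity (𝟙 X)
    have hI := (hasMotivic_iff _ l₀).1 (h k hk φ)
    obtain ⟨A, B, f, g, k', hT, hA, hB⟩ := hI.truncation X'
    exact retract_truncation ho (Retract.ofIso a.symm) ((S.F φ).F.map_distinguished _ hT)
      (fun i hi => ((S.F φ).coh l₀ i A).2 (hA i hi)) (fun i hi => ((S.F φ).coh l₀ i B).2 (hB i hi))
  · intro l X
    obtain ⟨k, _, _, φ, hk, X', Y', g', a, b, hg⟩ := S.continuity (𝟙 X)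
    have hI := (hasMotivic_iff _ l₀).1 (h k hk φ)
    refine ⟨fun hX => ?_, fun hX => ?_⟩
    · have h1 : CohLE ((S.M K).R l) 0 ((S.F φ).F.obj X') := fun i hi => ((S.F φ).coh l i X').2
        ((hI.amplitude l X').1 (fun j hj => ((S.F φ).coh l₀ j X').1 ((hX.iso a.symm) j hj)) i hi)
      exact h1.iso a
    · have h1 : CohGE ((S.M K).R l) 0 ((S.F φ).F.obj X') := fun i hi => ((S.F φ).coh l i X').2
        ((hI.amplitude l X').2 (fun j hj => ((S.F φ).coh l₀ j X').1 ((hX.iso a.symm) j hj)) i hi)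
      exact h1.iso a

/-- Base change is t-exact, and reflects the t-structures. -/
theorem base_exact {k K : Type s} [Field k] [CharP k p] [Field K] [CharP K p] (φ : k →+* K)
    {t : TStructure (S.M k).C} {t' : TStructure (S.M K).C} (ht : IsMotivic t (S.M k).R)
    (ht' : IsMotivic t' (S.M K).R) (n : ℤ) (X : (S.M k).C) :
    (t'.le n ((S.F φ).F.obj X) ↔ t.le n X) ∧ (t'.ge n ((S.F φ).F.obj X) ↔ t.ge n X) := by
  have h1 := isDefinedBy (mot_exact ht l₀) (mot_conservative ht (S.M k).unit l₀)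
  have h2 := isDefinedBy (mot_exact ht' l₀) (mot_conservative ht' (S.M K).unit l₀)
  constructor
  · rw [(h1 n X).1, (h2 n _).1]
    exact ⟨fun h i hi => ((S.F φ).coh l₀ i X).1 (h i hi), fun h i hi => ((S.F φ).coh l₀ i X).2 (h i hi)⟩
  · rw [(h1 n X).2, (h2 n _).2]
    exact ⟨fun h i hi => ((S.F φ).coh l₀ i X).1 (h i hi), fun h i hi => ((S.F φ).coh l₀ i X).2 (h i hi)⟩

/-- One field is enough. -/
theorem universal {Ω : Type s} [Field Ω] [CharP Ω p]
    (hΩ : ∀ (k : Type s) [Field k] [CharP k p], FG k → Nonempty (k →+* Ω)) :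
    (S.M Ω).HasMotivic ↔ ∀ (k : Type s) [Field k] [CharP k p], (S.M k).HasMotivic :=
  ⟨fun h K _ _ => up S fun k _ _ hk _ => down S (hΩ k hk).some h, fun h => h Ω⟩

end Pool.Agent.V11244.MTF
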