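import Pool.Agent.V11244.MTF.Main
import Pool.Agent.V11244.MTF.Emb

/-!
# Motivic t-structures over varying fields: one field in each characteristic is enough

`S` is the system of the categories `DM_c(k)` of constructible Voevodsky motives with rational
coefficients over all fields `k` of characteristic `p`, with base change functors and realisations
(`Pool.Agent.V11244.MTF.Motives` lists the formal properties which are used; `ℓ₀` is one of the
primes).
-/

set_option autoImplicit false

open CategoryTheory Limits Triangulated Cardinal

namespace Pool.Agent.Results.MP_6d0ce9_ag.OneFieldPerCharacteristic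

universe v u w s

open Pool.Agent.Y116.MT Pool.Agent.V11244.MTF

/-- Let `S` be the system of the categories of motives over the fields of characteristic `p`.

1. (descent) If there is a motivic t-structure over `K`, then there is one over every subfield
   `k` of `K` (`K/k` is an arbitrary extension).
2. (continuity) If there is a motivic t-structure over every finitely generated subfield of `K`,
   then there is one over `K`.
3. (one field is enough) If every finitely generated field of characteristic `p` embeds into `Ω`,
   or if `Ω` is algebraically closed and uncountable (`Ω = ℂ` for `p = 0`), then there is a motivic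
   t-structure over `Ω` if and only if there is one over every field of characteristic `p`.
4. (base change) For motivic t-structures over `k` and over `K`, an object `X` over `k` is in
   degrees `≤ n` (`≥ n`) if and only if `X_K` is in degrees `≤ n` (`≥ n`). -/
theorem result {p : ℕ} {Λ : Type*} {E : Λ → Type w} [∀ l, Field (E l)] {l₀ : Λ}
    (S : Motives.{v, u, w, s} p Λ E l₀) :
    (∀ {k K : Type s} [Field k] [CharP k p] [Field K] [CharP K p], (k →+* K) →
      (S.M K).HasMotivic → (S.M k).HasMotivic) ∧
    (∀ {K : Type s} [Field K] [CharP K p],
      (∀ (k : Type s) [Field k] [CharP k p], FG k → (k →+* K) → (S.M k).HasMotivic) →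
      (S.M K).HasMotivic) ∧
    (∀ {Ω : Type s} [Field Ω] [CharP Ω p],
      ((∀ (k : Type s) [Field k] [CharP k p], FG k → Nonempty (k →+* Ω)) ∨
        (IsAlgClosed Ω ∧ ℵ₀ < #Ω)) →
      ((S.M Ω).HasMotivic ↔ ∀ (k : Type s) [Field k] [CharP k p], (S.M k).HasMotivic)) ∧
    ∀ {k K : Type s} [Field k] [CharP k p] [Field K] [CharP K p] (φ : k →+* K)
      (t : TStructure (S.M k).C) (t' : TStructure (S.M K).C), IsMotivic t (S.M k).R →
      IsMotivic t' (S.M K).R → ∀ (n : ℤ) (X : (S.M k).C),
        (t'.le n ((S.F φ).F.obj X) ↔ t.le n X) ∧ (t'.ge n ((S.F φ).F.obj X) ↔ t.ge n X) := by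
  refine ⟨fun φ h => down S φ h, fun h => up S h, ?_, fun φ t t' ht ht' n X =>
    base_exact S φ ht ht' n X⟩
  rintro Ω _ _ (h | ⟨h, h'⟩)
  · exact universal S h
  · exact universal S fun k _ _ hk => embeds h' k hk

end Pool.Agent.Results.MP_6d0ce9_ag.OneFieldPerCharacteristic
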