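import Pool.Agent.V1151.MTC.Main
import Pool.Agent.V11244.MTF.Defs

/-!
# Truncations of retracts
-/

set_option autoImplicit false
set_option linter.unusedSectionVars false
set_option backward.isDefEq.respectTransparency false
set_option backward.defeqAttrib.useBackward true

open CategoryTheory Limits MonoidalCategory Pretriangulated Triangulated

namespace Pool.Agent.V11244.MTF

universe v u w

open Pool.Agent.Y116.MT Pool.Agent.V1151.MTC

variable {C : Type u} [Category.{v} C] [Preadditive C] [HasZeroObject C] [HasShift C ℤ]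
  [∀ n : ℤ, (shiftFunctor C n).Additive] [Pretriangulated C] [MonoidalCategory C]
  [SymmetricCategory C] [TensorTriangulated C]

section one

variable {E : Type w} [Field E] {R : Realisation C E}

lemma isZero_retract {X Z : C} (r : Retract X Z) {i : ℤ} (h : IsZero (R.H.obj (Z⟦i⟧))) :
    IsZero (R.H.obj (X⟦i⟧)) := by
  have r' : Retract (R.H.obj (X⟦i⟧)) (R.H.obj (Z⟦i⟧)) := (r.map (shiftFunctor C i)).map R.H
  rw [IsZero.iff_id_eq_zero, ← r'.retract, h.eq_of_tgt r'.i 0, zero_comp]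

/-- the third object of a triangle -/
lemma hz3' {X Y Z : C} {f : X ⟶ Y} {g : Y ⟶ Z} {h : Z ⟶ X⟦(1 : ℤ)⟧}
    (hT : Triangle.mk f g h ∈ distTriang C) (n : ℤ) (h1 : Epi (R.H.map (f⟦n⟧')))
    (h2 : Mono (R.H.map (f⟦n + 1⟧'))) : IsZero (R.H.obj (Z⟦n⟧)) := by
  let _ := Functor.ShiftSequence.tautological R.H ℤ
  have e1 : R.H.map (g⟦n⟧') = 0 := by
    rw [← cancel_epi (R.H.map (f⟦n⟧')), ← Functor.map_comp, ← Functor.map_comp, comp_zero]
    have : f ≫ g = 0 := comp_distTriang_mor_zero₁₂ _ hT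
    rw [this, Functor.map_zero, Functor.map_zero]
  have e2 : Epi (R.H.map (g⟦n⟧')) := by
    refine (R.H.homologySequence_epi_shift_map_mor₂_iff _ hT n (n + 1) (by omega)).2 ?_
    exact (R.H.homologySequence_mono_shift_map_mor₁_iff _ hT n (n + 1) (by omega)).1 h2
  rw [IsZero.iff_id_eq_zero, ← cancel_epi (R.H.map (g⟦n⟧')), e1, zero_comp, zero_comp]

/-- **Truncations of retracts.** -/
lemma retract_truncation [IsIdempotentComplete C]
    (ho : ∀ {X Y : C} (f : X ⟶ Y), CohLE R 0 X → CohGE R 1 Y → f = 0)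
    {X Z A B : C} (r : Retract X Z) {f : A ⟶ Z} {g : Z ⟶ B} {h : B ⟶ A⟦(1 : ℤ)⟧}
    (hT : Triangle.mk f g h ∈ distTriang C) (hA : CohLE R 0 A) (hB : CohGE R 1 B) :
    ∃ (A B : C) (f : A ⟶ X) (g : X ⟶ B) (h : B ⟶ A⟦(1 : ℤ)⟧),
      Triangle.mk f g h ∈ distTriang C ∧ CohLE R 0 A ∧ CohGE R 1 B := by
  obtain ⟨u, hu⟩ := ce2 hT (f ≫ r.r ≫ r.i) (ho _ hA hB)
  have hff : ∀ k : A ⟶ A, k ≫ f = 0 → k = 0 := by
    intro k hk
    obtain ⟨m, hm⟩ := ce1 hT (k⟦(1 : ℤ)⟧') (by rw [← Functor.map_comp, hk, Functor.map_zero])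
    have hm0 : m = 0 := by
      refine ho m ?_ hB
      have h1 : CohLE R (-1) (A⟦(1 : ℤ)⟧) := hA.shift (by omega)
      exact fun i hi => h1 i (by omega)
    apply (shiftFunctor C (1 : ℤ)).map_injective
    rw [hm, hm0, zero_comp, Functor.map_zero]
  have huu : u ≫ u = u := by
    have h1 : (u ≫ u - u) ≫ f = 0 := by
      rw [Preadditive.sub_comp, Category.assoc, ← hu, ← Category.assoc u f, ← hu]
      simp
    exact sub_eq_zero.1 (hff _ h1)
  obtain ⟨A', i, q, hiq, hqi⟩ := IsIdempotentComplete.idempotents_split A u huu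
  have ra : RetractArrow (i ≫ f ≫ r.r) f := by
    refine ⟨Arrow.homMk i r.i ?_, Arrow.homMk q r.r ?_, ?_⟩
    · show i ≫ f = (i ≫ f ≫ r.r) ≫ r.i
      have h1 : i ≫ u = i := by rw [← hqi, ← Category.assoc, hiq, Category.id_comp]
      calc i ≫ f = i ≫ u ≫ f := by rw [← Category.assoc, h1]
        _ = (i ≫ f ≫ r.r) ≫ r.i := by rw [← hu]; simp
    · show q ≫ i ≫ f ≫ r.r = f ≫ r.r
      rw [← Category.assoc q, hqi, ← Category.assoc u, ← hu]
      simp
    · ext
      · exact hiq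
      · exact r.retract
  obtain ⟨B', g', h', hT'⟩ := distinguished_cocone_triangle (i ≫ f ≫ r.r)
  refine ⟨A', B', _, g', h', hT', fun j hj => ?_, fun j hj => ?_⟩
  · exact isZero_retract ⟨i, q, hiq⟩ (hA j hj)
  · have hm : ∀ n : ℤ, RetractArrow (R.H.map ((i ≫ f ≫ r.r)⟦n⟧')) (R.H.map (f⟦n⟧')) :=
      fun n => (ra.map (shiftFunctor C n)).map R.H
    refine hz3' hT' j ?_ ?_
    · exact (MorphismProperty.epimorphisms _).of_retract (hm j) (hepi1 R.H hT j (hB j hj))
    · exact (MorphismProperty.monomorphisms _).of_retract (hm (j + 1))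
        (hmono1 R.H hT (j + 1) (hB _ (by omega)))

end one

end Pool.Agent.V11244.MTF
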